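import Pool.Agent.MP_c69980_ag.H43.Spec8

/-!
Smooth points are normal: initial forms.
-/

set_option autoImplicit false

namespace Pool.Agent.MP_c69980_ag.H43

open MvPolynomial

namespace NormA

variable {O : Type} [CommRing O] [Algebra ℂ O] {k : ℕ} {s : Fin k → O}

/-- `P` is the form of degree `n` of `f`. -/
def In (s : Fin k → O) (f : O) (n : ℕ) (P : MvPolynomial (Fin k) ℂ) : Prop :=
  P.IsHomogeneous n ∧ f - aeval s P ∈ Ideal.span (Set.range s) ^ (n + 1)

theorem hom_mem {n : ℕ} {P : MvPolynomial (Fin k) ℂ} (h : P.IsHomogeneous n) :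
    aeval s P ∈ Ideal.span (Set.range s) ^ n :=
  (Ideal.mem_span_pow_iff_exists_isHomogeneous s _).2 ⟨_, h.map (algebraMap ℂ O), by
    rw [eval_map, aeval_def]⟩

theorem In.mem {f : O} {n : ℕ} {P : MvPolynomial (Fin k) ℂ} (h : In s f n P) :
    f ∈ Ideal.span (Set.range s) ^ n := by
  simpa using add_mem (Ideal.pow_le_pow_right (Nat.le_succ n) h.2) (hom_mem h.1)

theorem In.mul {f g : O} {n n' : ℕ} {P Q : MvPolynomial (Fin k) ℂ} (h : In s f n P)
    (h' : In s g n' Q) : In s (f * g) (n + n') (P * Q) := by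
  refine ⟨h.1.mul h'.1, ?_⟩
  have e : f * g - aeval s (P * Q) = (f - aeval s P) * g + aeval s P * (g - aeval s Q) := by
    rw [map_mul]
    ring
  rw [e]
  refine add_mem ?_ ?_
  · rw [show n + n' + 1 = n + 1 + n' by ring, pow_add]
    exact Ideal.mul_mem_mul h.2 h'.mem
  · rw [add_assoc, pow_add]
    exact Ideal.mul_mem_mul (hom_mem h.1) h'.2

theorem In.add {f g : O} {n : ℕ} {P Q : MvPolynomial (Fin k) ℂ} (h : In s f n P)
    (h' : In s g n Q) : In s (f + g) n (P + Q) :=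
  ⟨h.1.add h'.1, by rw [map_add, add_sub_add_comm]; exact add_mem h.2 h'.2⟩

theorem In.pow {f : O} {n : ℕ} {P : MvPolynomial (Fin k) ℂ} (h : In s f n P) (N : ℕ) :
    In s (f ^ N) (n * N) (P ^ N) := by
  induction N with
  | zero => exact ⟨by simpa using isHomogeneous_one _ _, by simp⟩
  | succ N ih => rw [pow_succ, pow_succ, Nat.mul_succ]; exact ih.mul h

theorem der_pow (D : Derivation ℂ O O) (I : Ideal O) (n : ℕ) {f : O} (h : f ∈ I ^ (n + 1)) :
    D f ∈ I ^ n := by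
  induction n generalizing f with
  | zero => simp
  | succ n ih =>
    rw [pow_succ] at h
    refine Submodule.mul_induction_on h (fun a ha b hb => ?_) fun a b ha hb => ?_
    · rw [D.leibniz, smul_eq_mul, smul_eq_mul]
      refine add_mem (Ideal.mul_mem_right _ _ ha) ?_
      rw [pow_succ']
      exact Ideal.mul_mem_mul hb (ih ha)
    · rw [map_add]
      exact add_mem ha hb

section
variable {δ : Fin k → Derivation ℂ O O} (hδ : ∀ i j, δ i (s j) = if i = j then 1 else 0)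
  (h1 : Ideal.span (Set.range s) ≠ ⊤)
include hδ

theorem chain (i : Fin k) (P : MvPolynomial (Fin k) ℂ) :
    δ i (aeval s P) = aeval s (pderiv i P) := by
  induction P using MvPolynomial.induction_on with
  | C c => simp
  | add p q hp hq => simp only [map_add, hp, hq]
  | mul_X p j hp =>
    rw [map_mul, aeval_X, Derivation.leibniz, Derivation.leibniz, hp, hδ, pderiv_X]
    by_cases h : i = j
    · simp [h]
    · simp [h]

include h1

theorem eq_zero {n : ℕ} {P : MvPolynomial (Fin k) ℂ} (h : P.IsHomogeneous n)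
    (h' : aeval s P ∈ Ideal.span (Set.range s) ^ (n + 1)) : P = 0 := by
  induction n generalizing P with
  | zero =>
    rw [← totalDegree_zero_iff_isHomogeneous, totalDegree_eq_zero_iff_eq_C] at h
    rw [h, aeval_C, zero_add, pow_one] at h'
    by_contra h0
    exact h1 (Ideal.eq_top_of_isUnit_mem _ h'
      ((IsUnit.mk0 _ fun e => h0 (by rw [h, e, map_zero])).map _))
  | succ n ih =>
    have h2 : ∀ i, pderiv i P = 0 := fun i =>
      ih h.pderiv (chain hδ i P ▸ der_pow (δ i) _ _ h')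
    have h3 := h.sum_X_mul_pderiv
    simp only [h2, mul_zero, Finset.sum_const_zero] at h3
    exact (smul_eq_zero.1 h3.symm).resolve_left (Nat.succ_ne_zero n)

theorem In.le {f : O} {n n' : ℕ} {P : MvPolynomial (Fin k) ℂ} (h : In s f n P) (h0 : P ≠ 0)
    (h' : f ∈ Ideal.span (Set.range s) ^ n') : n' ≤ n := by
  by_contra hn
  refine h0 (eq_zero hδ h1 h.1 ?_)
  simpa using sub_mem (Ideal.pow_le_pow_right (not_le.1 hn) h') h.2

theorem In.uniq {f : O} {n n' : ℕ} {P Q : MvPolynomial (Fin k) ℂ} (h : In s f n P) (h0 : P ≠ 0)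
    (h' : In s f n' Q) (h0' : Q ≠ 0) : P = Q := by
  obtain rfl := le_antisymm (h.le hδ h1 h0 h'.mem) (h'.le hδ h1 h0' h.mem)
  refine sub_eq_zero.1 (eq_zero hδ h1 (h.1.sub h'.1) ?_)
  simpa using sub_mem h'.2 h.2

end

section
variable (h2 : ∀ f : O, ∃ c : ℂ, f - algebraMap ℂ O c ∈ Ideal.span (Set.range s))
include h2

theorem ex0 (f : O) : ∃ P, In s f 0 P := by
  obtain ⟨c, hc⟩ := h2 f
  exact ⟨C c, isHomogeneous_C _ _, by simpa using hc⟩

theorem ex1 {f : O} (h : f ∈ Ideal.span (Set.range s)) : ∃ P, In s f 1 P := by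
  induction h using Submodule.span_induction with
  | mem x hx =>
    obtain ⟨j, rfl⟩ := hx
    exact ⟨X j, isHomogeneous_X _ _, by simp⟩
  | zero => exact ⟨0, isHomogeneous_zero _ _ _, by simp⟩
  | add x y _ _ hx hy =>
    obtain ⟨P, hP⟩ := hx
    obtain ⟨Q, hQ⟩ := hy
    exact ⟨_, hP.add hQ⟩
  | smul r x _ hx =>
    obtain ⟨P, hP⟩ := hx
    obtain ⟨Q, hQ⟩ := ex0 h2 r
    exact ⟨_, hQ.mul hP⟩

theorem ex {n : ℕ} {f : O} (h : f ∈ Ideal.span (Set.range s) ^ n) : ∃ P, In s f n P := by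
  induction n generalizing f with
  | zero => exact ex0 h2 f
  | succ n ih =>
    rw [pow_succ] at h
    refine Submodule.mul_induction_on h (fun a ha b hb => ?_) fun a b ⟨P, hP⟩ ⟨Q, hQ⟩ =>
      ⟨_, hP.add hQ⟩
    obtain ⟨P, hP⟩ := ih ha
    obtain ⟨Q, hQ⟩ := ex1 h2 hb
    exact ⟨_, hP.mul hQ⟩

theorem ex_ne [IsNoetherianRing O] [IsLocalRing O] (h1 : Ideal.span (Set.range s) ≠ ⊤) {f : O}
    (h : f ≠ 0) : ∃ n P, P ≠ 0 ∧ In s f n P := by
  by_contra hn
  refine h ((Submodule.mem_bot O).1 (Ideal.iInf_pow_eq_bot_of_isLocalRing _ h1 ▸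
    Submodule.mem_iInf _ |>.2 fun n => ?_))
  induction n with
  | zero => simp
  | succ n ih =>
    obtain ⟨P, hP⟩ := ex h2 ih
    obtain rfl : P = 0 := by_contra fun e => hn ⟨n, P, e, hP⟩
    simpa using hP.2

end

theorem dvd_of {R : Type} [CommRing R] [IsDomain R] [IsNoetherianRing R] [IsIntegrallyClosed R]
    {A B c : R} (hB : B ≠ 0) (hc : c ≠ 0) (h : ∀ N : ℕ, B ^ N ∣ c * A ^ N) : B ∣ A := by
  have h0 : algebraMap R (FractionRing R) B ≠ 0 := by simpa using hB
  have h1 : IsAlmostIntegral R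
      (algebraMap R (FractionRing R) A / algebraMap R (FractionRing R) B) := by
    refine ⟨c, mem_nonZeroDivisors_of_ne_zero hc, fun N => ?_⟩
    obtain ⟨y, e⟩ := h N
    refine ⟨y, ?_⟩
    rw [Algebra.smul_def, div_pow, ← mul_div_assoc, ← map_pow, ← map_mul, e, map_mul, map_pow,
      mul_div_cancel_left₀ _ (pow_ne_zero _ h0)]
  obtain ⟨y, e⟩ := IsIntegrallyClosed.isIntegral_iff.1 h1.isIntegral
  refine ⟨y, FaithfulSMul.algebraMap_injective R (FractionRing R) ?_⟩
  rw [map_mul, e, mul_div_cancel₀ _ h0]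

theorem hom_div {A B : MvPolynomial (Fin k) ℂ} {α β : ℕ} (hA : A.IsHomogeneous α)
    (hB : B.IsHomogeneous β) (h0 : A ≠ 0) (h : B ∣ A) :
    ∃ (γ : ℕ) (G : MvPolynomial (Fin k) ℂ), G.IsHomogeneous γ ∧ β + γ = α ∧ B * G = A := by
  let := MvPolynomial.gradedAlgebra (σ := Fin k) (R := ℂ)
  obtain ⟨G, e⟩ := h
  have h1 := DirectSum.coe_decompose_mul_of_left_mem (homogeneousSubmodule (Fin k) ℂ) (b := G) α hB
  rw [← e, DirectSum.decompose_of_mem_same (homogeneousSubmodule (Fin k) ℂ) hA] at h1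
  split_ifs at h1 with h2
  · exact ⟨α - β, _, (DirectSum.decompose (homogeneousSubmodule (Fin k) ℂ) G (α - β)).2,
      Nat.add_sub_cancel' h2, h1.symm⟩
  · exact absurd h1 h0

theorem main [IsDomain O] [IsNoetherianRing O] [IsLocalRing O] {δ : Fin k → Derivation ℂ O O}
    (hδ : ∀ i j, δ i (s j) = if i = j then 1 else 0) (h1 : Ideal.span (Set.range s) ≠ ⊤)
    (h2 : ∀ f : O, ∃ c : ℂ, f - algebraMap ℂ O c ∈ Ideal.span (Set.range s)) {a b : O}
    (hb : b ≠ 0) (H : ∀ g : O, ∃ c, c ≠ 0 ∧ ∀ N : ℕ, b ^ N ∣ c * (a - b * g) ^ N) : b ∣ a := by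
  obtain ⟨β, B, B0, hB⟩ := ex_ne h2 h1 hb
  have key : ∀ n : ℕ, ∃ g, a - b * g ∈ Ideal.span (Set.range s) ^ n := fun n => by
    induction n with
    | zero => exact ⟨0, by simp⟩
    | succ n ih =>
      obtain ⟨g, hg⟩ := ih
      by_cases h0 : a - b * g = 0
      · exact ⟨g, h0 ▸ zero_mem _⟩
      obtain ⟨α, A, A0, hA⟩ := ex_ne h2 h1 h0
      obtain ⟨c, c0, hc⟩ := H g
      obtain ⟨γ, c', c1, c2⟩ := ex_ne h2 h1 c0
      obtain ⟨ε, G, g1, g2, g3⟩ := hom_div hA.1 hB.1 A0 (dvd_of B0 c1 fun N => by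
        obtain ⟨y, e⟩ := hc N
        have y0 : y ≠ 0 := fun h => mul_ne_zero c0 (pow_ne_zero N h0) (by rw [e, h, mul_zero])
        obtain ⟨η, Y, Y0, hY⟩ := ex_ne h2 h1 y0
        exact ⟨Y, (c2.mul (hA.pow N)).uniq hδ h1 (mul_ne_zero c1 (pow_ne_zero N A0))
          (e ▸ (hB.pow N).mul hY) (mul_ne_zero (pow_ne_zero N B0) Y0)⟩)
      have h3 := (hB.mul (show In s (aeval s G) ε G from ⟨g1, by simp⟩)).2
      rw [g2, g3] at h3
      refine ⟨g + aeval s G, Ideal.pow_le_pow_right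
        (Nat.succ_le_succ (hA.le hδ h1 A0 hg)) ?_⟩
      have h4 := sub_mem hA.2 h3
      rwa [sub_sub_sub_cancel_right, sub_sub, ← mul_add] at h4
  rw [← Ideal.mem_span_singleton, ← Submodule.Quotient.mk_eq_zero, ← Submodule.mem_bot O,
    ← Ideal.iInf_pow_smul_eq_bot_of_isLocalRing _ h1, Submodule.mem_iInf]
  intro n
  obtain ⟨g, hg⟩ := key n
  have e : (Submodule.Quotient.mk a : O ⧸ Ideal.span {b}) =
      (a - b * g) • Submodule.Quotient.mk 1 := by
    rw [← Submodule.Quotient.mk_smul, Submodule.Quotient.eq, smul_eq_mul, mul_one, sub_sub_cancel]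
    exact Ideal.mem_span_singleton.2 ⟨g, rfl⟩
  rw [e]
  exact Submodule.smul_mem_smul hg trivial

end NormA

theorem sNorm : SNorm := by
  intro K _ _ O _ _ k s d hd h1 hf x hx
  obtain ⟨a, ha, b, hb, b0, e⟩ := hf x
  let δ : Fin k → Derivation ℂ O O := fun i => Derivation.mk'
    { toFun := fun f => ⟨d i f, hd.pres i f f.2⟩
      map_add' := fun f g => Subtype.ext (map_add (d i) _ _)
      map_smul' := fun c f => Subtype.ext ((d i).map_smul c _) }
    fun f g => Subtype.ext ((d i).leibniz _ _)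
  have b1 : (⟨b, hb⟩ : O) ≠ 0 := fun h => b0 (congrArg Subtype.val h)
  obtain ⟨y, hy⟩ := NormA.main (s := s) (δ := δ) (fun i j => Subtype.ext (by
    rw [show (δ i (s j) : K) = d i (s j) from rfl, hd.dual]
    split_ifs <;> rfl)) h1 hd.res (a := ⟨a, ha⟩) b1 fun g => by
    have e' : (x - g) * b = a - b * g := by rw [← e]; ring
    obtain ⟨c, c0, hc⟩ := (hx.sub (isIntegral_algebraMap (x := g))
      ).isAlmostIntegral_of_exists_smul_mem_range ⟨⟨b, hb⟩, mem_nonZeroDivisors_of_ne_zero b1,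
        ⟨a, ha⟩ - ⟨b, hb⟩ * g, e'.symm.trans (mul_comm _ _)⟩
    refine ⟨c, nonZeroDivisors.ne_zero c0, fun N => ?_⟩
    obtain ⟨y, hy⟩ := hc N
    refine ⟨y, Subtype.ext ?_⟩
    have hy' : (y : K) = c * (x - g) ^ N := hy
    push_cast
    rw [hy', ← e', mul_pow]
    ring
  have : x = y := mul_right_cancel₀ b0 (e.trans ((congrArg Subtype.val hy).trans (mul_comm _ _)))
  exact this ▸ y.2

end Pool.Agent.MP_c69980_ag.H43
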